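import Mathlib

/-!
# Log-concavity of extended-promotion sorting counts: two closure operations

For a finite poset `P` with `n` elements let `a_k(P)` be the number of labelings which are
turned into a linear extension by `k` extended promotions.

* If `P` is `Q` together with one isolated element, then
  `a_k(P) = (n - k) a_k(Q) + k a_{k-1}(Q)`.
* If `P` is the ordinal sum of an `m`-element antichain below `Q`, then
  `a_k(P) = (k + 1)(k + 2) ⋯ (k + m) a_k(Q)` for `k ≤ |Q|`, and `a_k(P) = n!` for `k ≥ |Q|`.

Both operations preserve log-concavity of the sequence, so the conjecture holds for every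
poset that can be built from the empty poset by them, for example for all ordinal sums of
antichains (weak orders).
-/

namespace Pool.Agent.Results.MP_23e380_co.PromotionClosure

open Classical

/-- A labeling of a finite poset with `n` elements: a bijection onto `{1,…,n}`. -/
def IsLabeling {α : Type*} [Fintype α] (L : α → ℕ) : Prop :=
  Function.Injective L ∧ ∀ x, 1 ≤ L x ∧ L x ≤ Fintype.card α

/-- `y` is the `L`-successor of `x`: the element above `x` with the smallest label. -/
def IsSucc {α : Type*} [PartialOrder α] (L : α → ℕ) (x y : α) : Prop :=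
  x < y ∧ ∀ z, x < z → L y ≤ L z

/-- membership in the promotion chain `v₁, …, v_m`. -/
inductive InChain {α : Type*} [PartialOrder α] (L : α → ℕ) : α → Prop
  | base (x : α) : L x = 1 → InChain L x
  | step (x y : α) : InChain L x → IsSucc L x y → InChain L y

/-- extended promotion `∂`: a chain element gets the label of its `L`-successor minus one,
the last chain element (which is maximal) gets `n`, all other labels drop by one. -/
noncomputable def promo {α : Type*} [PartialOrder α] [Fintype α] (L : α → ℕ) (x : α) : ℕ :=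
  if InChain L x then
    if h : ∃ y, IsSucc L x y then L h.choose - 1 else Fintype.card α
  else L x - 1

/-- order preserving labelings (linear extensions). -/
def IsLinExt {α : Type*} [PartialOrder α] (L : α → ℕ) : Prop := ∀ x y, x < y → L x < L y

/-- `a_k(P)`: the number of labelings `L` for which `∂^k(L)` is a linear extension. -/
noncomputable def a (α : Type*) [PartialOrder α] [Fintype α] (k : ℕ) : ℕ :=
  Set.ncard {L : α → ℕ | IsLabeling L ∧ IsLabeling (promo^[k] L) ∧ IsLinExt (promo^[k] L)}

section basics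

set_option linter.unusedSectionVars false

variable {α : Type*} [PartialOrder α] [Fintype α]

theorem surj_lab {L : α → ℕ} (h : IsLabeling L) (v : ℕ) (h1 : 1 ≤ v)
    (h2 : v ≤ Fintype.card α) : ∃ x, L x = v := by
  have him : (Finset.univ.image L) = Finset.Icc 1 (Fintype.card α) := by
    apply Finset.eq_of_subset_of_card_le
    · intro w hw
      simp only [Finset.mem_image, Finset.mem_univ, true_and] at hw
      obtain ⟨x, rfl⟩ := hw
      simp only [Finset.mem_Icc]
      exact h.2 x
    · rw [Finset.card_image_of_injective _ h.1]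
      simp
  have : v ∈ Finset.univ.image L := by
    rw [him]; simp [h1, h2]
  simp only [Finset.mem_image, Finset.mem_univ, true_and] at this
  exact this

theorem exists_succ {L : α → ℕ} {x z : α} (h : x < z) : ∃ y, IsSucc L x y := by
  obtain ⟨y, hy, hm⟩ := Finset.exists_min_image (Finset.univ.filter (fun y => x < y)) L
    ⟨z, by simp [h]⟩
  refine ⟨y, by simpa using hy, fun w hw => hm w (by simp [hw])⟩

theorem succ_unique {L : α → ℕ} (hL : Function.Injective L) {x y z : α}
    (hy : IsSucc L x y) (hz : IsSucc L x z) : y = z :=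
  hL (le_antisymm (hy.2 z hz.1) (hz.2 y hy.1))

theorem promo_succ {L : α → ℕ} (hL : Function.Injective L) {x y : α}
    (hx : InChain L x) (hy : IsSucc L x y) : promo L x = L y - 1 := by
  unfold promo
  have h : ∃ y, IsSucc L x y := ⟨y, hy⟩
  rw [if_pos hx, dif_pos h, succ_unique hL h.choose_spec hy]

theorem promo_last {L : α → ℕ} {x : α}
    (hx : InChain L x) (hy : ¬ ∃ y, IsSucc L x y) : promo L x = Fintype.card α := by
  unfold promo
  rw [if_pos hx, dif_neg hy]

theorem promo_not {L : α → ℕ} {x : α} (hx : ¬ InChain L x) : promo L x = L x - 1 := by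
  unfold promo
  rw [if_neg hx]

/-- chain elements are above the first one. -/
theorem chain_ge {L : α → ℕ} (hL : Function.Injective L) {v : α} (hv : L v = 1) {x : α}
    (hx : InChain L x) : v ≤ x := by
  induction hx with
  | base x h => exact le_of_eq (hL (by rw [hv, h]))
  | step x y _ hs ih => exact ih.trans hs.1.le

theorem rtg_le {L : α → ℕ} {x y : α} (h : Relation.ReflTransGen (IsSucc L) x y) : x ≤ y := by
  induction h with
  | refl => exact le_rfl
  | tail _ hs ih => exact ih.trans hs.1.le

theorem chain_rtg {L : α → ℕ} {x : α} (hx : InChain L x) :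
    ∃ v, L v = 1 ∧ Relation.ReflTransGen (IsSucc L) v x := by
  induction hx with
  | base x h => exact ⟨x, h, Relation.ReflTransGen.refl⟩
  | step x y _ hs ih =>
    obtain ⟨v, hv, h⟩ := ih
    exact ⟨v, hv, h.tail hs⟩

/-- the chain is linearly ordered by successor steps. -/
theorem chain_lin {L : α → ℕ} (hL : Function.Injective L) {x y : α} (hx : InChain L x)
    (hy : InChain L y) :
    x = y ∨ (∃ x', IsSucc L x x' ∧ x' ≤ y) ∨ (∃ y', IsSucc L y y' ∧ y' ≤ x) := by
  obtain ⟨v, hv, h1⟩ := chain_rtg hx
  obtain ⟨w, hw, h2⟩ := chain_rtg hy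
  have hvw : v = w := hL (by rw [hv, hw])
  subst hvw
  have hu : Relator.RightUnique (IsSucc L) := fun a b c h3 h4 => succ_unique hL h3 h4
  rcases Relation.ReflTransGen.total_of_right_unique hu h1 h2 with h | h
  · rcases h.cases_head with h3 | ⟨z, h3, h4⟩
    · exact Or.inl h3
    · exact Or.inr (Or.inl ⟨z, h3, rtg_le h4⟩)
  · rcases h.cases_head with h3 | ⟨z, h3, h4⟩
    · exact Or.inl h3.symm
    · exact Or.inr (Or.inr ⟨z, h3, rtg_le h4⟩)

theorem promo_bounds {L : α → ℕ} (h : IsLabeling L) (x : α) :
    1 ≤ promo L x ∧ promo L x ≤ Fintype.card α := by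
  have hn : 1 ≤ Fintype.card α := (h.2 x).1.trans (h.2 x).2
  by_cases hx : InChain L x
  · by_cases hs : ∃ y, IsSucc L x y
    · obtain ⟨y, hy⟩ := hs
      rw [promo_succ h.1 hx hy]
      have h1 : L y ≠ 1 := by
        intro h2
        have := chain_ge h.1 h2 hx
        exact absurd (this.trans_lt hy.1) (lt_irrefl _)
      have := h.2 y
      omega
    · rw [promo_last hx hs]
      omega
  · rw [promo_not hx]
    have h1 : L x ≠ 1 := fun h2 => hx (InChain.base x h2)
    have := h.2 x
    omega

theorem promo_inj {L : α → ℕ} (h : IsLabeling L) : Function.Injective (promo L) := by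
  have key : ∀ x y : α, InChain L x → InChain L y → promo L x = promo L y →
      (∃ x', IsSucc L x x' ∧ x' ≤ y) → False := by
    intro x y hx hy he hh
    obtain ⟨x', h1, h2⟩ := hh
    rw [promo_succ h.1 hx h1] at he
    have b1 : L x' ≠ 1 := by
      intro h3
      exact absurd ((chain_ge h.1 h3 hx).trans_lt h1.1) (lt_irrefl _)
    have b2 := h.2 x'
    by_cases hs : ∃ z, IsSucc L y z
    · obtain ⟨z, hz⟩ := hs
      rw [promo_succ h.1 hy hz] at he
      have b3 := h.2 z
      have : x' = z := h.1 (by omega)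
      subst this
      exact absurd (h2.trans_lt hz.1) (lt_irrefl _)
    · rw [promo_last hy hs] at he
      omega
  have key2 : ∀ x y : α, InChain L x → ¬ InChain L y → promo L x = promo L y → False := by
    intro x y hx hy he
    rw [promo_not hy] at he
    have b0 := h.2 y
    have b4 : L y ≠ 1 := fun h2 => hy (InChain.base y h2)
    by_cases hs : ∃ z, IsSucc L x z
    · obtain ⟨z, hz⟩ := hs
      rw [promo_succ h.1 hx hz] at he
      have b1 : L z ≠ 1 := by
        intro h3
        exact absurd ((chain_ge h.1 h3 hx).trans_lt hz.1) (lt_irrefl _)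
      have b3 := h.2 z
      have : z = y := h.1 (by omega)
      subst this
      exact hy (InChain.step _ _ hx hz)
    · rw [promo_last hx hs] at he
      omega
  intro x y he
  by_cases hx : InChain L x
  · by_cases hy : InChain L y
    · rcases chain_lin h.1 hx hy with h1 | h1 | h1
      · exact h1
      · exact (key x y hx hy he h1).elim
      · exact (key y x hy hx he.symm h1).elim
    · exact (key2 x y hx hy he).elim
  · by_cases hy : InChain L y
    · exact (key2 y x hy hx he.symm).elim
    · rw [promo_not hx, promo_not hy] at he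
      have b1 : L x ≠ 1 := fun h2 => hx (InChain.base x h2)
      have b2 : L y ≠ 1 := fun h2 => hy (InChain.base y h2)
      have b3 := h.2 x
      have b4 := h.2 y
      exact h.1 (by omega)

theorem promo_lab {L : α → ℕ} (h : IsLabeling L) : IsLabeling (promo L) :=
  ⟨promo_inj h, promo_bounds h⟩

/-- partial sortedness: pairs whose lower label exceeds `n - i` are in order. -/
def USorted (i : ℕ) (L : α → ℕ) : Prop :=
  ∀ x y, x < y → Fintype.card α < L x + i → L x < L y

theorem usorted_step {L : α → ℕ} (h : IsLabeling L) {i : ℕ} (hU : USorted i L) :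
    USorted (i + 1) (promo L) := by
  intro x y hxy hi
  have by1 := h.2 y
  have bx1 := h.2 x
  by_cases hx : InChain L x
  · obtain ⟨x', hx'⟩ := exists_succ (L := L) hxy
    have bx' := h.2 x'
    rw [promo_succ h.1 hx hx'] at hi ⊢
    by_cases hy : InChain L y
    · rcases chain_lin h.1 hx hy with h1 | ⟨z, h1, h2⟩ | ⟨z, h1, h2⟩
      · exact absurd h1 hxy.ne
      · have hz : z = x' := succ_unique h.1 h1 hx'
        subst hz
        by_cases hs : ∃ y', IsSucc L y y'
        · obtain ⟨y', hy'⟩ := hs
          rw [promo_succ h.1 hy hy']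
          have := hU z y' (h2.trans_lt hy'.1) (by omega)
          omega
        · rw [promo_last hy hs]
          omega
      · exact absurd (hxy.trans h1.1) (not_lt_of_ge h2)
    · rw [promo_not hy]
      have h1 := hx'.2 y hxy
      have h2 : L x' ≠ L y := by
        intro h3
        have := h.1 h3
        subst this
        exact hy (InChain.step _ _ hx hx')
      omega
  · rw [promo_not hx] at hi ⊢
    have h1 := hU x y hxy (by omega)
    by_cases hy : InChain L y
    · by_cases hs : ∃ y', IsSucc L y y'
      · obtain ⟨y', hy'⟩ := hs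
        rw [promo_succ h.1 hy hy']
        have := hU y y' hy'.1 (by omega)
        omega
      · rw [promo_last hy hs]
        omega
    · rw [promo_not hy]
      omega

theorem iter_lab {L : α → ℕ} (h : IsLabeling L) (k : ℕ) : IsLabeling (promo^[k] L) := by
  induction k with
  | zero => exact h
  | succ k ih =>
    rw [Function.iterate_succ_apply']
    exact promo_lab ih

theorem usorted_iter {L : α → ℕ} (h : IsLabeling L) (k : ℕ) : USorted k (promo^[k] L) := by
  induction k with
  | zero =>
    intro x y _ hi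
    have := h.2 x
    simp only [Function.iterate_zero, id_eq] at hi
    omega
  | succ k ih =>
    rw [Function.iterate_succ_apply']
    exact usorted_step (iter_lab h k) ih

theorem sorted_iter {L : α → ℕ} (h : IsLabeling L) {k : ℕ} (hk : Fintype.card α ≤ k + 1) :
    IsLinExt (promo^[k] L) := by
  intro x y hxy
  have h1 := iter_lab h k
  have h2 := usorted_iter h k x y hxy
  have b1 := h1.2 x
  have b2 := h1.2 y
  by_cases h3 : promo^[k] L x = 1
  · have h4 : promo^[k] L x ≠ promo^[k] L y := fun h5 => hxy.ne (h1.1 h5)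
    omega
  · exact h2 (by omega)

theorem linExt_step {L : α → ℕ} (h : IsLabeling L) (hs : IsLinExt L) : IsLinExt (promo L) := by
  intro x y hxy
  have hU : USorted (Fintype.card α) L := fun x y hxy _ => hs x y hxy
  have := usorted_step h hU x y hxy
  have b := (promo_lab h).2 x
  exact this (by omega)

/-- the set of labelings sorted after `k` steps. -/
def S (α : Type*) [PartialOrder α] [Fintype α] (k : ℕ) : Set (α → ℕ) :=
  {L : α → ℕ | IsLabeling L ∧ IsLinExt (promo^[k] L)}

theorem a_eq (k : ℕ) : a α k = (S α k).ncard := by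
  unfold a S
  congr 1
  ext L
  simp only [Set.mem_setOf_eq]
  constructor
  · rintro ⟨h1, _, h2⟩
    exact ⟨h1, h2⟩
  · rintro ⟨h1, h2⟩
    exact ⟨h1, iter_lab h1 k, h2⟩

theorem lab_finite : {L : α → ℕ | IsLabeling L}.Finite :=
  (Set.Finite.pi' (fun _ : α => Set.finite_Icc 1 (Fintype.card α))).subset
    (fun _ hL i => hL.2 i)

theorem S_finite (k : ℕ) : (S α k).Finite :=
  lab_finite.subset (fun _ h => h.1)

theorem S_mono {k l : ℕ} (h : k ≤ l) : S α k ⊆ S α l := by
  induction l, h using Nat.le_induction with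
  | base => exact subset_rfl
  | succ l _ ih =>
    refine ih.trans ?_
    intro L hL
    refine ⟨hL.1, ?_⟩
    rw [Function.iterate_succ_apply']
    exact linExt_step (iter_lab hL.1 l) hL.2

theorem S_top {k l : ℕ} (h : Fintype.card α ≤ k + 1) : S α l ⊆ S α k :=
  fun _ hL => ⟨hL.1, sorted_iter hL.1 h⟩

theorem a_mono {k l : ℕ} (h : k ≤ l) : a α k ≤ a α l := by
  rw [a_eq, a_eq]
  exact Set.ncard_le_ncard (S_mono h) (S_finite l)

theorem a_top {k l : ℕ} (h : Fintype.card α ≤ k + 1) : a α l ≤ a α k := by
  rw [a_eq, a_eq]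
  exact Set.ncard_le_ncard (S_top h) (S_finite k)

end basics

section comb

variable {α β : Type*} [PartialOrder α] [PartialOrder β] [Fintype α] [Fintype β]

/-- insert a new element with label `c`. -/
def comb (e : Option α ≃ β) (c : ℕ) (M : α → ℕ) (b : β) : ℕ :=
  match e.symm b with
  | none => c
  | some q => if M q < c then M q else M q + 1

theorem comb_none (e : Option α ≃ β) (c : ℕ) (M : α → ℕ) : comb e c M (e none) = c := by
  simp [comb]

theorem comb_some (e : Option α ≃ β) (c : ℕ) (M : α → ℕ) (q : α) :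
    comb e c M (e (some q)) = if M q < c then M q else M q + 1 := by
  simp [comb]

theorem opt_cases (e : Option α ≃ β) (b : β) : b = e none ∨ ∃ q, b = e (some q) := by
  rcases h : e.symm b with _ | q
  · left
    rw [← h]; simp
  · right
    exact ⟨q, by rw [← h]; simp⟩

theorem card_eq (e : Option α ≃ β) : Fintype.card β = Fintype.card α + 1 := by
  rw [← Fintype.card_congr e, Fintype.card_option]

theorem comb_lab (e : Option α ≃ β) {c : ℕ} {M : α → ℕ} (hM : IsLabeling M) (h1 : 1 ≤ c)
    (h2 : c ≤ Fintype.card α + 1) : IsLabeling (comb e c M) := by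
  refine ⟨?_, ?_⟩
  · intro x y h
    rcases opt_cases e x with rfl | ⟨p, rfl⟩ <;> rcases opt_cases e y with rfl | ⟨q, rfl⟩
    · rfl
    · rw [comb_none, comb_some] at h
      split_ifs at h <;> omega
    · rw [comb_none, comb_some] at h
      split_ifs at h <;> omega
    · rw [comb_some, comb_some] at h
      have : M p = M q := by split_ifs at h <;> omega
      rw [hM.1 this]
  · intro x
    rw [card_eq e]
    rcases opt_cases e x with rfl | ⟨p, rfl⟩
    · rw [comb_none]; exact ⟨h1, h2⟩
    · rw [comb_some]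
      have := hM.2 p
      split_ifs <;> omega

theorem comb_inj (e : Option α ≃ β) {c c' : ℕ} {M M' : α → ℕ}
    (h : comb e c M = comb e c' M') : c = c' ∧ M = M' := by
  have hc : c = c' := by
    have := congrFun h (e none)
    rwa [comb_none, comb_none] at this
  subst hc
  refine ⟨rfl, ?_⟩
  funext q
  have := congrFun h (e (some q))
  rw [comb_some, comb_some] at this
  split_ifs at this <;> omega

theorem comb_surj (e : Option α ≃ β) {L : β → ℕ} (hL : IsLabeling L) :
    ∃ c M, 1 ≤ c ∧ c ≤ Fintype.card α + 1 ∧ IsLabeling M ∧ L = comb e c M := by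
  have hc := hL.2 (e none)
  rw [card_eq e] at hc
  have hne : ∀ q, L (e (some q)) ≠ L (e none) := by
    intro q h
    have := e.injective (hL.1 h)
    simp at this
  refine ⟨L (e none), fun q => if L (e (some q)) < L (e none) then L (e (some q))
    else L (e (some q)) - 1, hc.1, hc.2, ⟨?_, ?_⟩, ?_⟩
  · intro p q h
    have h1 := hne p
    have h2 := hne q
    have : L (e (some p)) = L (e (some q)) := by
      simp only at h
      split_ifs at h <;> omega
    have := e.injective (hL.1 this)
    simpa using this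
  · intro q
    have h1 := hne q
    have h2 := hL.2 (e (some q))
    rw [card_eq e] at h2
    simp only
    split_ifs <;> omega
  · funext b
    rcases opt_cases e b with rfl | ⟨q, rfl⟩
    · rw [comb_none]
    · rw [comb_some]
      have h1 := hne q
      have h2 := hL.2 (e (some q))
      split_ifs <;> omega

variable (e : Option α ≃ β)

theorem succ_some (he : ∀ x y, e (some x) < e (some y) ↔ x < y)
    (hno : ∀ x, ¬ e (some x) < e none) (c : ℕ) (M : α → ℕ) (x y : α) :
    IsSucc (comb e c M) (e (some x)) (e (some y)) ↔ IsSucc M x y := by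
  unfold IsSucc
  rw [he]
  constructor
  · rintro ⟨h1, h2⟩
    refine ⟨h1, fun z hz => ?_⟩
    have := h2 (e (some z)) ((he x z).2 hz)
    rw [comb_some, comb_some] at this
    split_ifs at this <;> omega
  · rintro ⟨h1, h2⟩
    refine ⟨h1, fun z hz => ?_⟩
    rcases opt_cases e z with rfl | ⟨q, rfl⟩
    · exact absurd hz (hno x)
    · have := h2 q ((he x q).1 hz)
      rw [comb_some, comb_some]
      split_ifs <;> omega

theorem chain_gt (he : ∀ x y, e (some x) < e (some y) ↔ x < y)
    (hno : ∀ x, ¬ e (some x) < e none) {c : ℕ} (hc : 1 < c) {M : α → ℕ} (hM : IsLabeling M)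
    (b : β) : InChain (comb e c M) b ↔ ∃ x, b = e (some x) ∧ InChain M x := by
  constructor
  · intro h
    induction h with
    | base b hb =>
      rcases opt_cases e b with rfl | ⟨q, rfl⟩
      · rw [comb_none] at hb; omega
      · refine ⟨q, rfl, InChain.base q ?_⟩
        rw [comb_some] at hb
        have := hM.2 q
        split_ifs at hb <;> omega
    | step x y _ hs ih =>
      obtain ⟨x', rfl, hx'⟩ := ih
      rcases opt_cases e y with rfl | ⟨q, rfl⟩
      · exact absurd hs.1 (hno x')
      · exact ⟨q, rfl, InChain.step _ _ hx' ((succ_some e he hno c M x' q).1 hs)⟩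
  · rintro ⟨x, rfl, hx⟩
    induction hx with
    | base x h =>
      apply InChain.base
      rw [comb_some, if_pos (by omega), h]
    | step x y _ hs ih => exact InChain.step _ _ ih ((succ_some e he hno c M x y).2 hs)

theorem promo_gt (he : ∀ x y, e (some x) < e (some y) ↔ x < y)
    (hno : ∀ x, ¬ e (some x) < e none) {c : ℕ} (hc : 1 < c) (hc2 : c ≤ Fintype.card α + 1)
    {M : α → ℕ} (hM : IsLabeling M) :
    promo (comb e c M) = comb e (c - 1) (promo M) := by
  have hC := comb_lab e hM hc.le hc2
  funext b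
  rcases opt_cases e b with rfl | ⟨x, rfl⟩
  · rw [comb_none, promo_not, comb_none]
    rw [chain_gt e he hno hc hM]
    rintro ⟨x, h, _⟩
    have := e.injective h
    simp at this
  · have hx0 := hM.2 x
    by_cases hx : InChain M x
    · have hx1 : InChain (comb e c M) (e (some x)) := (chain_gt e he hno hc hM _).2 ⟨x, rfl, hx⟩
      by_cases hs : ∃ y, IsSucc M x y
      · obtain ⟨y, hy⟩ := hs
        rw [promo_succ hC.1 hx1 ((succ_some e he hno c M x y).2 hy), comb_some, comb_some,
          promo_succ hM.1 hx hy]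
        have := hM.2 y
        split_ifs <;> omega
      · have hs' : ¬ ∃ b, IsSucc (comb e c M) (e (some x)) b := by
          rintro ⟨b, hb⟩
          rcases opt_cases e b with rfl | ⟨q, rfl⟩
          · exact hno x hb.1
          · exact hs ⟨q, (succ_some e he hno c M x q).1 hb⟩
        rw [promo_last hx1 hs', comb_some, promo_last hx hs, card_eq e]
        split_ifs <;> omega
    · have hx1 : ¬ InChain (comb e c M) (e (some x)) := by
        rw [chain_gt e he hno hc hM]
        rintro ⟨y, h, hy⟩
        have := e.injective h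
        simp only [Option.some.injEq] at this
        subst this
        exact hx hy
      rw [promo_not hx1, comb_some, comb_some, promo_not hx]
      split_ifs <;> omega

theorem promo_iso (hno : ∀ x, ¬ e (some x) < e none) (hiso : ∀ x, ¬ e none < e (some x))
    {M : α → ℕ} (hM : IsLabeling M) :
    promo (comb e 1 M) = comb e (Fintype.card α + 1) M := by
  have hch : ∀ b, InChain (comb e 1 M) b → b = e none := by
    intro b hb
    induction hb with
    | base b hb =>
      rcases opt_cases e b with rfl | ⟨q, rfl⟩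
      · rfl
      · rw [comb_some] at hb
        have := hM.2 q
        split_ifs at hb <;> omega
    | step x y _ hs ih =>
      subst ih
      rcases opt_cases e y with rfl | ⟨q, rfl⟩
      · rfl
      · exact absurd hs.1 (hiso q)
  funext b
  rcases opt_cases e b with rfl | ⟨x, rfl⟩
  · rw [comb_none, promo_last, card_eq e]
    · exact InChain.base _ (comb_none e 1 M)
    · rintro ⟨y, hy⟩
      rcases opt_cases e y with rfl | ⟨q, rfl⟩
      · exact lt_irrefl _ hy.1
      · exact hiso q hy.1
  · have := hM.2 x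
    rw [promo_not, comb_some, comb_some, if_neg (by omega), if_pos (by omega)]
    · omega
    · intro h
      have := e.injective (hch _ h)
      simp at this

theorem promo_bot (he : ∀ x y, e (some x) < e (some y) ↔ x < y)
    (hno : ∀ x, ¬ e (some x) < e none) (hbot : ∀ x, e none < e (some x))
    {M : α → ℕ} (hM : IsLabeling M) :
    promo (comb e 1 M) = comb e 1 (promo M) := by
  have hC := comb_lab e hM le_rfl (by omega)
  have hs1 : ∀ q, M q = 1 → IsSucc (comb e 1 M) (e none) (e (some q)) := by
    intro q hq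
    refine ⟨hbot q, fun z hz => ?_⟩
    rcases opt_cases e z with rfl | ⟨p, rfl⟩
    · exact absurd hz (lt_irrefl _)
    · rw [comb_some, comb_some]
      have := hM.2 p
      split_ifs <;> omega
  have hs2 : ∀ q, IsSucc (comb e 1 M) (e none) (e (some q)) → M q = 1 := by
    intro q hq
    have hn : 1 ≤ Fintype.card α := (hM.2 q).1.trans (hM.2 q).2
    obtain ⟨p, hp⟩ := surj_lab hM 1 le_rfl hn
    have := hq.2 (e (some p)) (hbot p)
    rw [comb_some, comb_some] at this
    have h2 := hM.2 q
    split_ifs at this <;> omega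
  have h0 : InChain (comb e 1 M) (e none) := InChain.base _ (comb_none e 1 M)
  have hch : ∀ b, InChain (comb e 1 M) b → b = e none ∨ ∃ x, b = e (some x) ∧ InChain M x := by
    intro b hb
    induction hb with
    | base b hb =>
      rcases opt_cases e b with rfl | ⟨q, rfl⟩
      · exact Or.inl rfl
      · rw [comb_some] at hb
        have := hM.2 q
        split_ifs at hb <;> omega
    | step x y _ hs ih =>
      rcases opt_cases e y with rfl | ⟨q, rfl⟩
      · exact Or.inl rfl
      · right
        rcases ih with rfl | ⟨x', rfl, hx'⟩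
        · exact ⟨q, rfl, InChain.base _ (hs2 q hs)⟩
        · exact ⟨q, rfl, InChain.step _ _ hx' ((succ_some e he hno 1 M x' q).1 hs)⟩
  have hch2 : ∀ x, InChain M x → InChain (comb e 1 M) (e (some x)) := by
    intro x hx
    induction hx with
    | base x h => exact InChain.step _ _ h0 (hs1 x h)
    | step x y _ hs ih => exact InChain.step _ _ ih ((succ_some e he hno 1 M x y).2 hs)
  funext b
  rcases opt_cases e b with rfl | ⟨x, rfl⟩
  · rw [comb_none]
    by_cases hn : 1 ≤ Fintype.card α
    · obtain ⟨p, hp⟩ := surj_lab hM 1 le_rfl hn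
      rw [promo_succ hC.1 h0 (hs1 p hp), comb_some, hp, if_neg (by omega)]
    · rw [promo_last h0, card_eq e]
      · omega
      · rintro ⟨y, hy⟩
        rcases opt_cases e y with rfl | ⟨q, rfl⟩
        · exact lt_irrefl _ hy.1
        · have := hM.2 q
          omega
  · have hx0 := hM.2 x
    have hp0 := (promo_lab hM).2 x
    rw [comb_some, if_neg (by omega)]
    by_cases hx : InChain M x
    · have hx1 := hch2 x hx
      by_cases hs : ∃ y, IsSucc M x y
      · obtain ⟨y, hy⟩ := hs
        have := hM.2 y
        have hz := promo_succ hM.1 hx hy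
        rw [promo_succ hC.1 hx1 ((succ_some e he hno 1 M x y).2 hy), comb_some,
          if_neg (by omega)]
        omega
      · have hs' : ¬ ∃ b, IsSucc (comb e 1 M) (e (some x)) b := by
          rintro ⟨b, hb⟩
          rcases opt_cases e b with rfl | ⟨q, rfl⟩
          · exact hno x hb.1
          · exact hs ⟨q, (succ_some e he hno 1 M x q).1 hb⟩
        rw [promo_last hx1 hs', promo_last hx hs, card_eq e]
    · have hx1 : ¬ InChain (comb e 1 M) (e (some x)) := by
        intro h
        rcases hch _ h with h | ⟨y, h, hy⟩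
        · have := e.injective h
          simp at this
        · have := e.injective h
          simp only [Option.some.injEq] at this
          subst this
          exact hx hy
      have hz := promo_not (L := M) hx
      rw [promo_not hx1, comb_some, if_neg (by omega)]
      omega

theorem linExt_iso (he : ∀ x y, e (some x) < e (some y) ↔ x < y)
    (hno : ∀ x, ¬ e (some x) < e none) (hiso : ∀ x, ¬ e none < e (some x))
    (c : ℕ) (M : α → ℕ) : IsLinExt (comb e c M) ↔ IsLinExt M := by
  constructor
  · intro h x y hxy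
    have := h _ _ ((he x y).2 hxy)
    rw [comb_some, comb_some] at this
    split_ifs at this <;> omega
  · intro h x y hxy
    rcases opt_cases e x with rfl | ⟨p, rfl⟩ <;> rcases opt_cases e y with rfl | ⟨q, rfl⟩
    · exact absurd hxy (lt_irrefl _)
    · exact absurd hxy (hiso q)
    · exact absurd hxy (hno p)
    · have := h _ _ ((he p q).1 hxy)
      rw [comb_some, comb_some]
      split_ifs <;> omega

theorem linExt_bot (he : ∀ x y, e (some x) < e (some y) ↔ x < y)
    (hno : ∀ x, ¬ e (some x) < e none) (hbot : ∀ x, e none < e (some x))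
    {c : ℕ} {M : α → ℕ} (hM : IsLabeling M) (h1 : 1 ≤ c) (h2 : c ≤ Fintype.card α + 1) :
    IsLinExt (comb e c M) ↔ c = 1 ∧ IsLinExt M := by
  constructor
  · intro h
    refine ⟨?_, ?_⟩
    · by_cases hn : 1 ≤ Fintype.card α
      · obtain ⟨p, hp⟩ := surj_lab hM 1 le_rfl hn
        have := h _ _ (hbot p)
        rw [comb_none, comb_some, hp] at this
        split_ifs at this <;> omega
      · omega
    · intro x y hxy
      have := h _ _ ((he x y).2 hxy)
      rw [comb_some, comb_some] at this
      split_ifs at this <;> omega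
  · rintro ⟨rfl, h⟩ x y hxy
    rcases opt_cases e x with rfl | ⟨p, rfl⟩ <;> rcases opt_cases e y with rfl | ⟨q, rfl⟩
    · exact absurd hxy (lt_irrefl _)
    · rw [comb_none, comb_some]
      have := hM.2 q
      split_ifs <;> omega
    · exact absurd hxy (hno p)
    · have := h _ _ ((he p q).1 hxy)
      rw [comb_some, comb_some]
      split_ifs <;> omega

theorem iter_bot (he : ∀ x y, e (some x) < e (some y) ↔ x < y)
    (hno : ∀ x, ¬ e (some x) < e none) (hbot : ∀ x, e none < e (some x))
    {c : ℕ} {M : α → ℕ} (hM : IsLabeling M) (h1 : 1 ≤ c) (h2 : c ≤ Fintype.card α + 1) (k : ℕ) :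
    promo^[k] (comb e c M) = comb e (max (c - k) 1) (promo^[k] M) := by
  induction k with
  | zero =>
    simp only [Function.iterate_zero, id_eq, Nat.sub_zero]
    rw [max_eq_left h1]
  | succ k ih =>
    rw [Function.iterate_succ_apply', ih, Function.iterate_succ_apply']
    by_cases hc : 1 < c - k
    · rw [max_eq_left hc.le, promo_gt e he hno hc (by omega) (iter_lab hM k)]
      congr 1
      omega
    · rw [max_eq_right (by omega), promo_bot e he hno hbot (iter_lab hM k)]
      congr 1
      omega

theorem iter_iso_lt (he : ∀ x y, e (some x) < e (some y) ↔ x < y)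
    (hno : ∀ x, ¬ e (some x) < e none)
    {c : ℕ} {M : α → ℕ} (hM : IsLabeling M) (h2 : c ≤ Fintype.card α + 1) (k : ℕ) (hk : k < c) :
    promo^[k] (comb e c M) = comb e (c - k) (promo^[k] M) := by
  induction k with
  | zero => simp
  | succ k ih =>
    rw [Function.iterate_succ_apply', ih (by omega), Function.iterate_succ_apply',
      promo_gt e he hno (by omega) (by omega) (iter_lab hM k)]
    congr 1

theorem iter_iso_ge (he : ∀ x y, e (some x) < e (some y) ↔ x < y)
    (hno : ∀ x, ¬ e (some x) < e none) (hiso : ∀ x, ¬ e none < e (some x))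
    {c : ℕ} {M : α → ℕ} (hM : IsLabeling M) (h1 : 1 ≤ c) (h2 : c ≤ Fintype.card α + 1)
    (k : ℕ) (hk : c ≤ k) : k ≤ Fintype.card α + 1 →
    promo^[k] (comb e c M) = comb e (Fintype.card α + 1 - (k - c)) (promo^[k - 1] M) := by
  induction k, hk using Nat.le_induction with
  | base =>
    intro _
    obtain ⟨d, rfl⟩ : ∃ d, c = d + 1 := ⟨c - 1, by omega⟩
    rw [Function.iterate_succ_apply', iter_iso_lt e he hno hM h2 d (by omega)]
    have : d + 1 - d = 1 := by omega
    rw [this, promo_iso e hno hiso (iter_lab hM d)]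
    simp
  | succ k hk ih =>
    intro hk2
    rw [Function.iterate_succ_apply', ih (by omega)]
    rw [promo_gt e he hno (by omega) (by omega) (iter_lab hM (k - 1))]
    obtain ⟨d, rfl⟩ : ∃ d, k = d + 1 := ⟨k - 1, by omega⟩
    simp only [Nat.add_sub_cancel]
    rw [← Function.iterate_succ_apply' promo d M]
    congr 1
    omega

theorem ncard_Icc' (u v : ℕ) : (Set.Icc u v).ncard = v + 1 - u := by
  rw [← Finset.coe_Icc, Set.ncard_coe_finset, Nat.card_Icc]

theorem F_inj : Function.Injective (fun p : ℕ × (α → ℕ) => comb e p.1 p.2) := by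
  rintro ⟨c, M⟩ ⟨c', M'⟩ h
  obtain ⟨h1, h2⟩ := comb_inj e h
  rw [Prod.mk.injEq]
  exact ⟨h1, h2⟩

theorem a_bot (he : ∀ x y, e (some x) < e (some y) ↔ x < y)
    (hno : ∀ x, ¬ e (some x) < e none) (hbot : ∀ x, e none < e (some x))
    (k : ℕ) (hk : k ≤ Fintype.card α) : a β k = (k + 1) * a α k := by
  have hS : S β k = (fun p : ℕ × (α → ℕ) => comb e p.1 p.2) '' (Set.Icc 1 (k + 1) ×ˢ S α k) := by
    ext L
    constructor
    · rintro ⟨hL, hs⟩
      obtain ⟨c, M, h1, h2, hM, rfl⟩ := comb_surj e hL
      refine ⟨(c, M), ⟨?_, hM, ?_⟩, rfl⟩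
      all_goals
        rw [iter_bot e he hno hbot hM h1 h2, linExt_bot e he hno hbot (iter_lab hM k)
          (by omega) (by omega)] at hs
      · simp only [Set.mem_Icc]
        omega
      · exact hs.2
    · rintro ⟨⟨c, M⟩, ⟨h1, hM, hs⟩, rfl⟩
      simp only [Set.mem_Icc] at h1
      refine ⟨comb_lab e hM h1.1 (by omega), ?_⟩
      simp only
      rw [iter_bot e he hno hbot hM h1.1 (by omega), linExt_bot e he hno hbot (iter_lab hM k)
          (by omega) (by omega)]
      exact ⟨by omega, hs⟩
  rw [a_eq, a_eq, hS, Set.ncard_image_of_injective _ (F_inj e), Set.ncard_prod, ncard_Icc']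
  simp

theorem a_iso (he : ∀ x y, e (some x) < e (some y) ↔ x < y)
    (hno : ∀ x, ¬ e (some x) < e none) (hiso : ∀ x, ¬ e none < e (some x))
    (k : ℕ) (hk : k ≤ Fintype.card α + 1) :
    a β k = (Fintype.card α + 1 - k) * a α k + k * a α (k - 1) := by
  have hS : S β k = (fun p : ℕ × (α → ℕ) => comb e p.1 p.2) ''
      (Set.Icc (k + 1) (Fintype.card α + 1) ×ˢ S α k ∪ Set.Icc 1 k ×ˢ S α (k - 1)) := by
    ext L
    constructor
    · rintro ⟨hL, hs⟩
      obtain ⟨c, M, h1, h2, hM, rfl⟩ := comb_surj e hL
      refine ⟨(c, M), ?_, rfl⟩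
      by_cases hc : k < c
      · left
        rw [iter_iso_lt e he hno hM h2 k hc, linExt_iso e he hno hiso] at hs
        exact ⟨by simp only [Set.mem_Icc]; omega, hM, hs⟩
      · right
        rw [iter_iso_ge e he hno hiso hM h1 h2 k (by omega) hk, linExt_iso e he hno hiso] at hs
        exact ⟨by simp only [Set.mem_Icc]; omega, hM, hs⟩
    · rintro ⟨⟨c, M⟩, ⟨h1, hM, hs⟩ | ⟨h1, hM, hs⟩, rfl⟩
      · simp only [Set.mem_Icc] at h1
        refine ⟨comb_lab e hM (by omega) h1.2, ?_⟩
        simp only
        rw [iter_iso_lt e he hno hM h1.2 k (by omega), linExt_iso e he hno hiso]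
        exact hs
      · simp only [Set.mem_Icc] at h1
        refine ⟨comb_lab e hM h1.1 (by omega), ?_⟩
        simp only
        rw [iter_iso_ge e he hno hiso hM h1.1 (by omega) k h1.2 hk, linExt_iso e he hno hiso]
        exact hs
  have hd : Disjoint (Set.Icc (k + 1) (Fintype.card α + 1) ×ˢ S α k)
      (Set.Icc 1 k ×ˢ S α (k - 1)) := by
    rw [Set.disjoint_left]
    rintro ⟨c, M⟩ ⟨h1, _⟩ ⟨h2, _⟩
    simp only [Set.mem_Icc] at h1 h2
    omega
  rw [a_eq, a_eq, a_eq, hS, Set.ncard_image_of_injective _ (F_inj e),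
    Set.ncard_union_eq hd ((Set.finite_Icc _ _).prod (S_finite _))
      ((Set.finite_Icc _ _).prod (S_finite _)), Set.ncard_prod, Set.ncard_prod, ncard_Icc',
    ncard_Icc']
  congr 2
  omega

end comb

/-- log-concavity of `a_0(P), …, a_{n-1}(P)`. -/
def LC (α : Type*) [PartialOrder α] [Fintype α] : Prop :=
  ∀ i, 1 ≤ i → i + 2 ≤ Fintype.card α → a α (i - 1) * a α (i + 1) ≤ a α i ^ 2

theorem LC.ext {α : Type*} [PartialOrder α] [Fintype α] (h : LC α) (i : ℕ) (hi : 1 ≤ i) :
    a α (i - 1) * a α (i + 1) ≤ a α i ^ 2 := by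
  by_cases h1 : i + 2 ≤ Fintype.card α
  · exact h i hi h1
  · rw [sq]
    exact Nat.mul_le_mul (a_mono (Nat.sub_le _ _)) (a_top (by omega))

theorem alg_ineq (x y z w m I : ℤ) (hm : 0 ≤ m) (hI : 0 ≤ I)
    (h1 : I * (x * z) ≤ I * y ^ 2) (h2 : I * (x * w) ≤ I * (y * z)) (h3 : y * w ≤ z ^ 2) :
    ((m + 2) * y + I * x) * (m * w + (I + 2) * z) ≤ ((m + 1) * z + (I + 1) * y) ^ 2 := by
  have e1 : (m + 2) * m * (y * w) ≤ (m + 2) * m * z ^ 2 :=
    mul_le_mul_of_nonneg_left h3 (by positivity)
  have e2 : m * (I * (x * w)) ≤ m * (I * (y * z)) := mul_le_mul_of_nonneg_left h2 hm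
  have e3 : (I + 2) * (I * (x * z)) ≤ (I + 2) * (I * y ^ 2) :=
    mul_le_mul_of_nonneg_left h1 (by positivity)
  nlinarith [sq_nonneg (z - y)]

theorem cross_ineq (x y z w : ℕ) (hxy : x ≤ y) (hyz : y ≤ z)
    (h1 : x * z ≤ y ^ 2) (h3 : y * w ≤ z ^ 2) : x * w ≤ y * z := by
  rcases Nat.eq_zero_or_pos (y * z) with h | h
  · rcases Nat.mul_eq_zero.1 h with h4 | h4
    · have : x = 0 := by omega
      simp [this]
    · have : x = 0 := by omega
      simp [this]
  · have : (x * w) * (y * z) ≤ (y * z) * (y * z) := by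
      calc (x * w) * (y * z) = (x * z) * (y * w) := by ring
        _ ≤ y ^ 2 * z ^ 2 := Nat.mul_le_mul h1 h3
        _ = (y * z) * (y * z) := by ring
    exact Nat.le_of_mul_le_mul_right this h

section closure

variable {α β : Type*} [PartialOrder α] [PartialOrder β] [Fintype α] [Fintype β]

theorem LC_bot (e : Option α ≃ β) (he : ∀ x y, e (some x) < e (some y) ↔ x < y)
    (hno : ∀ x, ¬ e (some x) < e none) (hbot : ∀ x, e none < e (some x)) (h : LC α) : LC β := by
  intro i hi hn
  rw [card_eq e] at hn
  rw [a_bot e he hno hbot _ (by omega), a_bot e he hno hbot _ (by omega),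
    a_bot e he hno hbot _ (by omega)]
  have h1 := h.ext i hi
  obtain ⟨j, rfl⟩ : ∃ j, i = j + 1 := ⟨i - 1, by omega⟩
  simp only [Nat.add_sub_cancel] at h1 ⊢
  calc (j + 1) * a α j * ((j + 1 + 1 + 1) * a α (j + 1 + 1))
      = ((j + 1) * (j + 1 + 1 + 1)) * (a α j * a α (j + 1 + 1)) := by ring
    _ ≤ ((j + 1 + 1) ^ 2) * a α (j + 1) ^ 2 := Nat.mul_le_mul (by nlinarith) h1
    _ = ((j + 1 + 1) * a α (j + 1)) ^ 2 := by ring

theorem LC_iso (e : Option α ≃ β) (he : ∀ x y, e (some x) < e (some y) ↔ x < y)
    (hno : ∀ x, ¬ e (some x) < e none) (hiso : ∀ x, ¬ e none < e (some x)) (h : LC α) :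
    LC β := by
  intro i hi hn
  rw [card_eq e] at hn
  rw [a_iso e he hno hiso _ (by omega), a_iso e he hno hiso _ (by omega),
    a_iso e he hno hiso _ (by omega)]
  obtain ⟨j, rfl⟩ : ∃ j, i = j + 1 := ⟨i - 1, by omega⟩
  obtain ⟨m, hm⟩ : ∃ m, Fintype.card α = m + 1 + j := ⟨Fintype.card α - 1 - j, by omega⟩
  simp only [Nat.add_sub_cancel]
  have c1 : Fintype.card α + 1 - j = m + 2 := by omega
  have c2 : Fintype.card α + 1 - (j + 1 + 1) = m := by omega
  have c3 : Fintype.card α + 1 - (j + 1) = m + 1 := by omega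
  rw [c1, c2, c3]
  have h3 := h.ext (j + 1) (by omega)
  simp only [Nat.add_sub_cancel] at h3
  have h1 : j * (a α (j - 1) * a α (j + 1)) ≤ j * a α j ^ 2 := by
    rcases Nat.eq_zero_or_pos j with h0 | h0
    · simp [h0]
    · exact Nat.mul_le_mul_left _ (h.ext j h0)
  have h2 : j * (a α (j - 1) * a α (j + 1 + 1)) ≤ j * (a α j * a α (j + 1)) := by
    rcases Nat.eq_zero_or_pos j with h0 | h0
    · simp [h0]
    · exact Nat.mul_le_mul_left _ (cross_ineq _ _ _ _ (a_mono (Nat.sub_le _ _))
        (a_mono (by omega)) (h.ext j h0) h3)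
  have := alg_ineq (a α (j - 1) : ℤ) (a α j) (a α (j + 1)) (a α (j + 1 + 1)) m j (by positivity)
    (by positivity) (by exact_mod_cast h1) (by exact_mod_cast h2) (by exact_mod_cast h3)
  have e2 : ((m + 2) * a α j + j * a α (j - 1)) * (m * a α (j + 1 + 1) + (j + 2) * a α (j + 1)) ≤
      ((m + 1) * a α (j + 1) + (j + 1) * a α j) ^ 2 := by exact_mod_cast this
  convert e2 using 2

end closure

/-- removing a least element. -/
theorem LC_of_least {P : Type*} [PartialOrder P] [Fintype P] (p : P) (hp : ∀ x, p ≤ x)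
    (h : LC {x : P // x ≠ p}) : LC P := by
  refine LC_bot (Equiv.optionSubtypeNe p) ?_ ?_ ?_ h
  · intro x y; simp
  · intro x
    simp only [Equiv.optionSubtypeNe_some, Equiv.optionSubtypeNe_none]
    exact not_lt_of_ge (hp x)
  · intro x
    simp only [Equiv.optionSubtypeNe_some, Equiv.optionSubtypeNe_none]
    exact lt_of_le_of_ne (hp x) (Ne.symm x.2)

/-- removing an isolated element. -/
theorem LC_of_isolated {P : Type*} [PartialOrder P] [Fintype P] (p : P)
    (hp : ∀ x, x ≠ p → ¬ x ≤ p ∧ ¬ p ≤ x)
    (h : LC {x : P // x ≠ p}) : LC P := by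
  refine LC_iso (Equiv.optionSubtypeNe p) ?_ ?_ ?_ h
  · intro x y; simp
  · intro x
    simp only [Equiv.optionSubtypeNe_some, Equiv.optionSubtypeNe_none]
    exact fun h => (hp x x.2).1 h.le
  · intro x
    simp only [Equiv.optionSubtypeNe_some, Equiv.optionSubtypeNe_none]
    exact fun h => (hp x x.2).2 h.le

section rel

variable {P Q : Type*} [PartialOrder P] [PartialOrder Q] [Fintype P] [Fintype Q]

/-- `L` and `g` order `Q` in the same way. -/
def Rel (ι : Q → P) (L : P → ℕ) (g : Q → ℕ) : Prop := ∀ q q', L (ι q) < L (ι q') ↔ g q < g q'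

theorem Rel.le {ι : Q → P} {L : P → ℕ} {g : Q → ℕ} (h : Rel ι L g) (q q' : Q) :
    L (ι q) ≤ L (ι q') ↔ g q ≤ g q' := by
  have := h q' q
  omega

/-- a labeling is determined by the order it induces. -/
theorem lab_unique {g g' : Q → ℕ} (hg : IsLabeling g) (hg' : IsLabeling g')
    (h : ∀ q q', g q < g q' ↔ g' q < g' q') : g = g' := by
  have key : ∀ f : Q → ℕ, IsLabeling f → ∀ q, f q = (Finset.univ.filter (fun q' => f q' ≤ f q)).card := by
    intro f hf q
    have : (Finset.univ.filter (fun q' => f q' ≤ f q)).image f = Finset.Icc 1 (f q) := by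
      ext v
      simp only [Finset.mem_image, Finset.mem_filter, Finset.mem_univ, true_and, Finset.mem_Icc]
      constructor
      · rintro ⟨q', h1, rfl⟩
        exact ⟨(hf.2 q').1, h1⟩
      · rintro ⟨h1, h2⟩
        obtain ⟨q', rfl⟩ := surj_lab hf v h1 (h2.trans (hf.2 q).2)
        exact ⟨q', h2, rfl⟩
    rw [← Finset.card_image_of_injective _ hf.1, this]
    simp
  funext q
  rw [key g hg q, key g' hg' q]
  congr 1
  ext q'
  simp only [Finset.mem_filter, Finset.mem_univ, true_and]
  have := h q q'
  omega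

theorem exists_std {f : Q → ℕ} (hf : Function.Injective f) :
    ∃ g : Q → ℕ, IsLabeling g ∧ ∀ q q', f q < f q' ↔ g q < g q' := by
  have hlt : ∀ q q', f q < f q' → (Finset.univ.filter (fun r => f r ≤ f q)).card <
      (Finset.univ.filter (fun r => f r ≤ f q')).card := by
    intro q q' h
    apply Finset.card_lt_card
    rw [Finset.ssubset_iff_of_subset]
    · exact ⟨q', by simp, by simp [h]⟩
    · intro r
      simp only [Finset.mem_filter, Finset.mem_univ, true_and]
      omega
  refine ⟨fun q => (Finset.univ.filter (fun r => f r ≤ f q)).card, ⟨?_, ?_⟩, ?_⟩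
  · intro q q' h
    rcases lt_trichotomy (f q) (f q') with h1 | h1 | h1
    · exact absurd h (hlt _ _ h1).ne
    · exact hf h1
    · exact absurd h (hlt _ _ h1).ne'
  · intro q
    refine ⟨Finset.card_pos.2 ⟨q, by simp⟩, Finset.card_le_univ _⟩
  · intro q q'
    constructor
    · exact hlt q q'
    · intro h
      by_contra h1
      rcases (not_lt.1 h1).eq_or_lt with h2 | h2
      · have h3 := hf h2
        subst h3
        exact absurd h (lt_irrefl _)
      · exact absurd h (hlt _ _ h2).not_gt

/-- ordinal sum of an antichain (the complement of the range of `ι`) below `Q`. -/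
structure Below (ι : Q → P) : Prop where
  inj : Function.Injective ι
  lt_iff : ∀ q q', ι q < ι q' ↔ q < q'
  bot : ∀ b, b ∉ Set.range ι → ∀ x, b < x ↔ x ∈ Set.range ι

theorem Below.not_lt_bot {ι : Q → P} (h : Below ι) {b : P} (hb : b ∉ Set.range ι) (x : P) :
    ¬ x < b := by
  intro hx
  by_cases hx' : x ∈ Set.range ι
  · obtain ⟨q, rfl⟩ := hx'
    have h1 : b < ι q := (h.bot b hb _).2 ⟨q, rfl⟩
    exact lt_irrefl _ (hx.trans h1)
  · exact hb ((h.bot x hx' b).1 hx)

theorem one_lab {g : Q → ℕ} (hg : IsLabeling g) {q : Q} (h : ∀ z, g q ≤ g z) : g q = 1 := by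
  have hn : 1 ≤ Fintype.card Q := (hg.2 q).1.trans (hg.2 q).2
  obtain ⟨p, hp⟩ := surj_lab hg 1 le_rfl hn
  have := h p
  have := hg.2 q
  omega

theorem Below.succ {ι : Q → P} (h : Below ι) {L : P → ℕ} {g : Q → ℕ} (hr : Rel ι L g) (x y : Q) :
    IsSucc L (ι x) (ι y) ↔ IsSucc g x y := by
  unfold IsSucc
  rw [h.lt_iff]
  constructor
  · rintro ⟨h1, h2⟩
    refine ⟨h1, fun z hz => ?_⟩
    rw [← hr.le]
    exact h2 _ ((h.lt_iff _ _).2 hz)
  · rintro ⟨h1, h2⟩
    refine ⟨h1, fun z hz => ?_⟩
    by_cases hz' : z ∈ Set.range ι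
    · obtain ⟨w, rfl⟩ := hz'
      rw [hr.le]
      exact h2 _ ((h.lt_iff _ _).1 hz)
    · exact absurd hz (h.not_lt_bot hz' _)

theorem Below.succ_bot {ι : Q → P} (h : Below ι) {L : P → ℕ} {g : Q → ℕ} (hg : IsLabeling g)
    (hr : Rel ι L g) {b : P} (hb : b ∉ Set.range ι) (y : Q) :
    IsSucc L b (ι y) ↔ g y = 1 := by
  constructor
  · rintro ⟨_, h2⟩
    apply one_lab hg
    intro z
    rw [← hr.le]
    exact h2 _ ((h.bot b hb _).2 ⟨z, rfl⟩)
  · intro hy
    refine ⟨(h.bot b hb _).2 ⟨y, rfl⟩, fun z hz => ?_⟩
    obtain ⟨w, rfl⟩ := (h.bot b hb z).1 hz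
    rw [hr.le, hy]
    exact (hg.2 w).1

theorem Below.chain {ι : Q → P} (h : Below ι) {L : P → ℕ} {g : Q → ℕ} (hL : IsLabeling L)
    (hg : IsLabeling g) (hr : Rel ι L g) (x : Q) : InChain L (ι x) ↔ InChain g x := by
  constructor
  · intro hx
    have : ∀ b, InChain L b → (b ∉ Set.range ι ∧ L b = 1) ∨ ∃ x, b = ι x ∧ InChain g x := by
      intro b hb
      induction hb with
      | base b hb =>
        by_cases hb' : b ∈ Set.range ι
        · obtain ⟨q, rfl⟩ := hb'
          right
          refine ⟨q, rfl, InChain.base _ (one_lab hg fun z => ?_)⟩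
          rw [← hr.le, hb]
          exact (hL.2 _).1
        · exact Or.inl ⟨hb', hb⟩
      | step x y hx hs ih =>
        by_cases hy : y ∈ Set.range ι
        · obtain ⟨q, rfl⟩ := hy
          right
          refine ⟨q, rfl, ?_⟩
          rcases ih with ⟨h1, _⟩ | ⟨x', rfl, h1⟩
          · exact InChain.base _ ((h.succ_bot hg hr h1 q).1 hs)
          · exact InChain.step _ _ h1 ((h.succ hr x' q).1 hs)
        · exact absurd hs.1 (h.not_lt_bot hy _)
    rcases this _ hx with ⟨h1, _⟩ | ⟨y, h1, h2⟩
    · exact absurd ⟨x, rfl⟩ h1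
    · rw [h.inj h1]
      exact h2
  · intro hx
    induction hx with
    | base x hx =>
      have hn : 1 ≤ Fintype.card P := (hL.2 (ι x)).1.trans (hL.2 (ι x)).2
      obtain ⟨b, hb⟩ := surj_lab hL 1 le_rfl hn
      by_cases hb' : b ∈ Set.range ι
      · obtain ⟨q, rfl⟩ := hb'
        apply InChain.base
        have h1 : g x ≤ g q := by rw [hx]; exact (hg.2 q).1
        rw [← hr.le, hb] at h1
        have := (hL.2 (ι x)).1
        omega
      · exact InChain.step _ _ (InChain.base _ hb) ((h.succ_bot hg hr hb' x).2 hx)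
    | step x y _ hs ih => exact InChain.step _ _ ih ((h.succ hr x y).2 hs)

theorem Below.succ_ex {ι : Q → P} (h : Below ι) {L : P → ℕ} {g : Q → ℕ} 
    (hr : Rel ι L g) (x : Q) (hs : ¬ ∃ y, IsSucc g x y) : ¬ ∃ b, IsSucc L (ι x) b := by
  rintro ⟨b, hb⟩
  by_cases hb' : b ∈ Set.range ι
  · obtain ⟨q, rfl⟩ := hb'
    exact hs ⟨q, (h.succ hr x q).1 hb⟩
  · exact h.not_lt_bot hb' _ hb.1

/-- values of the promotion. -/
theorem Below.vals {ι : Q → P} (h : Below ι) {L : P → ℕ} {g : Q → ℕ} (hL : IsLabeling L)
    (hg : IsLabeling g) (hr : Rel ι L g) (x : Q) :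
    (∃ y, promo L (ι x) = L (ι y) - 1 ∧ promo g x = g y - 1) ∨
    (promo L (ι x) = Fintype.card P ∧ promo g x = Fintype.card Q) := by
  by_cases hx : InChain g x
  · have hx' := (h.chain hL hg hr x).2 hx
    by_cases hs : ∃ y, IsSucc g x y
    · obtain ⟨y, hy⟩ := hs
      left
      exact ⟨y, promo_succ hL.1 hx' ((h.succ hr x y).2 hy), promo_succ hg.1 hx hy⟩
    · right
      exact ⟨promo_last hx' (h.succ_ex hr x hs), promo_last hx hs⟩
  · left
    refine ⟨x, promo_not ?_, promo_not hx⟩
    rw [h.chain hL hg hr x]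
    exact hx

theorem Below.rel_step {ι : Q → P} (h : Below ι) {L : P → ℕ} {g : Q → ℕ} (hL : IsLabeling L)
    (hg : IsLabeling g) (hr : Rel ι L g) : Rel ι (promo L) (promo g) := by
  intro x x'
  rcases h.vals hL hg hr x with ⟨y, h1, h2⟩ | ⟨h1, h2⟩ <;>
  rcases h.vals hL hg hr x' with ⟨y', h3, h4⟩ | ⟨h3, h4⟩ <;>
  rw [h1, h2, h3, h4]
  · have := hr y y'
    have := hL.2 (ι y)
    have := hL.2 (ι y')
    have := hg.2 y
    have := hg.2 y'
    omega
  · have := hL.2 (ι y)
    have := hg.2 y
    omega
  · have := hL.2 (ι y')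
    have := hg.2 y'
    omega
  · omega

/-- if all labels on `Q` are at least `v` then `v + n ≤ N + 1`. -/
theorem low_bound {ι : Q → P} (hi : Function.Injective ι) {L : P → ℕ} (hL : IsLabeling L) {v : ℕ}
    (hn : v ≤ Fintype.card P + 1) (hv : ∀ q, v ≤ L (ι q)) :
    v + Fintype.card Q ≤ Fintype.card P + 1 := by
  have h1 : (Finset.univ.image (fun q => L (ι q))) ⊆ Finset.Icc v (Fintype.card P) := by
    intro w hw
    simp only [Finset.mem_image, Finset.mem_univ, true_and] at hw
    obtain ⟨q, rfl⟩ := hw
    simp only [Finset.mem_Icc]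
    exact ⟨hv q, (hL.2 _).2⟩
  have h2 := Finset.card_le_card h1
  rw [Finset.card_image_of_injective _ (fun a b hab => hi (hL.1 hab)), Nat.card_Icc,
    Finset.card_univ] at h2
  omega

def Top (ι : Q → P) (t : ℕ) (L : P → ℕ) : Prop := ∀ b, b ∉ Set.range ι → L b ≤ t

theorem Below.top_step {ι : Q → P} (h : Below ι) {L : P → ℕ} {g : Q → ℕ} (hL : IsLabeling L)
    (hg : IsLabeling g) (hr : Rel ι L g) {m k : ℕ}
    (hm : Fintype.card P = Fintype.card Q + m) :
    Top ι (m + (k + 1)) L ↔ Top ι (m + k) (promo L) := by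
  constructor
  · intro ht b hb
    by_cases h1 : L b = 1
    · have hb1 : InChain L b := InChain.base _ h1
      by_cases hn : 1 ≤ Fintype.card Q
      · obtain ⟨y, hy⟩ := surj_lab hg 1 le_rfl hn
        rw [promo_succ hL.1 hb1 ((h.succ_bot hg hr hb y).2 hy)]
        have := low_bound h.inj hL (v := L (ι y)) (by have := hL.2 (ι y); omega) (fun q => by
          rw [hr.le, hy]; exact (hg.2 q).1)
        omega
      · have := (promo_lab hL).2 b
        omega
    · have hb1 : ¬ InChain L b := by
        intro hc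
        cases hc with
        | base _ h2 => exact h1 h2
        | step x _ _ hs => exact h.not_lt_bot hb _ hs.1
      rw [promo_not hb1]
      have := ht b hb
      omega
  · intro ht b hb
    by_cases h1 : L b = 1
    · omega
    · have hb1 : ¬ InChain L b := by
        intro hc
        cases hc with
        | base _ h2 => exact h1 h2
        | step x _ _ hs => exact h.not_lt_bot hb _ hs.1
      have := ht b hb
      rw [promo_not hb1] at this
      omega

theorem card_compl {ι : Q → P} (hi : Function.Injective ι) {m : ℕ}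
    (hm : Fintype.card P = Fintype.card Q + m) :
    (Finset.univ.filter (fun b => b ∉ Set.range ι)).card = m := by
  have h1 : (Finset.univ.filter (fun b => b ∈ Set.range ι)).card = Fintype.card Q := by
    rw [← Finset.card_univ, ← Finset.card_image_of_injective Finset.univ hi]
    congr 1
    ext b
    simp
  have h2 := Finset.card_filter_add_card_filter_not (s := (Finset.univ : Finset P))
    (fun b => b ∈ Set.range ι)
  rw [Finset.card_univ] at h2
  omega

theorem Below.linExt {ι : Q → P} (h : Below ι) {L : P → ℕ} {g : Q → ℕ} (hL : IsLabeling L)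
    (hr : Rel ι L g) {m : ℕ} (hm : Fintype.card P = Fintype.card Q + m) :
    IsLinExt L ↔ Top ι m L ∧ IsLinExt g := by
  constructor
  · intro hs
    refine ⟨fun b hb => ?_, fun x y hxy => (hr x y).1 (hs _ _ ((h.lt_iff x y).2 hxy))⟩
    have := low_bound h.inj hL (v := L b + 1) (by have := hL.2 b; omega) (fun q =>
      hs b (ι q) ((h.bot b hb _).2 ⟨q, rfl⟩))
    omega
  · rintro ⟨ht, hs⟩ x y hxy
    by_cases hx : x ∈ Set.range ι
    · obtain ⟨q, rfl⟩ := hx
      by_cases hy : y ∈ Set.range ι
      · obtain ⟨q', rfl⟩ := hy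
        exact (hr _ _).2 (hs _ _ ((h.lt_iff _ _).1 hxy))
      · exact absurd hxy (h.not_lt_bot hy _)
    · obtain ⟨q, rfl⟩ := (h.bot x hx y).1 hxy
      have h1 := ht x hx
      by_contra hc
      have h2 : L (ι q) ≤ m := by omega
      have h3 : (insert (ι q) (Finset.univ.filter (fun b => b ∉ Set.range ι))).image L ⊆
          Finset.Icc 1 m := by
        intro w hw
        simp only [Finset.mem_image, Finset.mem_insert, Finset.mem_filter, Finset.mem_univ,
          true_and] at hw
        obtain ⟨b, hb | hb, rfl⟩ := hw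
        · subst hb
          simp only [Finset.mem_Icc]
          exact ⟨(hL.2 _).1, h2⟩
        · simp only [Finset.mem_Icc]
          exact ⟨(hL.2 _).1, ht b hb⟩
      have h4 := Finset.card_le_card h3
      rw [Finset.card_image_of_injective _ hL.1, Finset.card_insert_of_notMem (by simp),
        card_compl h.inj hm, Nat.card_Icc] at h4
      omega

theorem Below.iter {ι : Q → P} (h : Below ι) {m : ℕ}
    (hm : Fintype.card P = Fintype.card Q + m) (k : ℕ) : ∀ {L : P → ℕ} {g : Q → ℕ},
    IsLabeling L → IsLabeling g → Rel ι L g →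
    (IsLinExt (promo^[k] L) ↔ Top ι (m + k) L ∧ IsLinExt (promo^[k] g)) := by
  induction k with
  | zero =>
    intro L g hL _ hr
    exact h.linExt hL hr hm
  | succ k ih =>
    intro L g hL hg hr
    rw [Function.iterate_succ_apply, Function.iterate_succ_apply,
      ih (promo_lab hL) (promo_lab hg) (h.rel_step hL hg hr), h.top_step hL hg hr hm]

/-- the set of labelings counted below. -/
def K (ι : Q → P) (t : ℕ) (G : Set (Q → ℕ)) : Set (P → ℕ) :=
  {L | IsLabeling L ∧ Top ι t L ∧ ∃ g ∈ G, Rel ι L g}

theorem K_zero {ι : Q → P} (hi : Function.Injective ι) (hm : Fintype.card P = Fintype.card Q)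
    (t : ℕ) (G : Set (Q → ℕ)) (hG : ∀ g ∈ G, IsLabeling g) : (K ι t G).ncard = G.ncard := by
  have hb : Function.Bijective ι := (Fintype.bijective_iff_injective_and_card ι).2 ⟨hi, hm.symm⟩
  let e := Equiv.ofBijective ι hb
  have he : ∀ q, e q = ι q := fun q => rfl
  have hK : K ι t G = (fun g => g ∘ e.symm) '' G := by
    ext L
    constructor
    · rintro ⟨hL, _, g, hg, hr⟩
      refine ⟨g, hg, ?_⟩
      have h1 : IsLabeling (L ∘ ι) := ⟨hL.1.comp hi, fun q => by
        have := hL.2 (ι q)
        rw [hm] at this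
        exact this⟩
      have h2 : L ∘ ι = g := lab_unique h1 (hG g hg) hr
      funext b
      have h3 : ι (e.symm b) = b := by rw [← he]; simp
      simp only [Function.comp_apply]
      rw [← h2]
      simp only [Function.comp_apply, h3]
    · rintro ⟨g, hg, rfl⟩
      have h1 := hG g hg
      refine ⟨⟨h1.1.comp e.symm.injective, fun b => ?_⟩, ?_, g, hg, ?_⟩
      · have := h1.2 (e.symm b)
        rw [← hm] at this
        exact this
      · intro b hb'
        exact absurd (hb.2 b) hb'
      · intro q q'
        simp only [Function.comp_apply, ← he, Equiv.symm_apply_apply]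
  rw [hK, Set.ncard_image_of_injective]
  intro g g' hgg
  funext q
  have := congrFun hgg (e q)
  simpa using this

end rel

theorem K_card {Q : Type*} [PartialOrder Q] [Fintype Q] (k : ℕ) (hk : k ≤ Fintype.card Q)
    (G : Set (Q → ℕ)) (hG : ∀ g ∈ G, IsLabeling g) (m : ℕ) :
    ∀ {P : Type*} [PartialOrder P] [Fintype P] (ι : Q → P), Function.Injective ι →
    Fintype.card P = Fintype.card Q + m →
    (K ι (m + k) G).ncard = (∏ i ∈ Finset.range m, (k + i + 1)) * G.ncard := by
  induction m with
  | zero =>
    intro P _ _ ι hi hm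
    rw [K_zero hi hm _ G hG]
    simp
  | succ m ih =>
    intro P _ _ ι hi hm
    obtain ⟨p, hp⟩ : ∃ p, p ∉ Set.range ι := by
      by_contra hc
      push Not at hc
      have := Fintype.card_le_of_surjective ι (fun b => hc b)
      omega
    have hne : ∀ q, ι q ≠ p := fun q h => hp ⟨q, h⟩
    obtain ⟨ι', hι'⟩ : ∃ ι' : Q → {x : P // x ≠ p}, ∀ q, (ι' q).1 = ι q :=
      ⟨fun q => ⟨ι q, hne q⟩, fun q => rfl⟩
    have hi' : Function.Injective ι' := fun a b hab => hi (by rw [← hι', ← hι', hab])
    obtain ⟨e, he0, hes⟩ : ∃ e : Option {x : P // x ≠ p} ≃ P, e none = p ∧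
        ∀ x : {x : P // x ≠ p}, e (some x) = x.1 :=
      ⟨Equiv.optionSubtypeNe p, by simp, fun x => by simp⟩
    have h00 : ∀ (c : ℕ) (M : {x : P // x ≠ p} → ℕ), comb e c M p = c := by
      intro c M
      have := comb_none e c M
      rwa [he0] at this
    have hc := card_eq e
    have hm' : Fintype.card {x : P // x ≠ p} = Fintype.card Q + m := by omega
    have hK : K ι (m + 1 + k) G = (fun r : ℕ × ({x : P // x ≠ p} → ℕ) => comb e r.1 r.2) ''
        (Set.Icc 1 (m + 1 + k) ×ˢ K ι' (m + k) G) := by
      ext L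
      constructor
      · rintro ⟨hL, ht, g, hg, hr⟩
        obtain ⟨c, M, h1, h2, hM, rfl⟩ := comb_surj e hL
        have hcp := ht p hp
        rw [h00] at hcp
        refine ⟨(c, M), ⟨⟨h1, hcp⟩, hM, ?_, g, hg, ?_⟩, rfl⟩
        · intro b hb
          have hb' : b.1 ∉ Set.range ι := by
            rintro ⟨q, hq⟩
            exact hb ⟨q, Subtype.ext (by rw [hι', hq])⟩
          have := ht _ hb'
          rw [← hes, comb_some] at this
          simp only
          split_ifs at this <;> omega
        · intro q q'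
          have := hr q q'
          have h5 : ι q = e (some (ι' q)) := by rw [hes, hι']
          have h6 : ι q' = e (some (ι' q')) := by rw [hes, hι']
          rw [h5, h6, comb_some, comb_some] at this
          rw [← this]
          simp only
          split_ifs <;> omega
      · rintro ⟨⟨c, M⟩, ⟨h1, hM, ht, g, hg, hr⟩, rfl⟩
        simp only [Set.mem_Icc] at h1
        refine ⟨comb_lab e hM h1.1 (by omega), ?_, g, hg, ?_⟩
        · intro b hb
          rcases opt_cases e b with hb1 | ⟨x, hb1⟩
          · simp only [hb1, comb_none]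
            exact h1.2
          · simp only [hb1, comb_some]
            have hx : x ∉ Set.range ι' := by
              rintro ⟨q, hq⟩
              apply hb
              rw [hb1, hes, ← hq, hι']
              exact ⟨q, rfl⟩
            have := ht x hx
            simp only at this
            split_ifs <;> omega
        · intro q q'
          have h5 : ι q = e (some (ι' q)) := by rw [hes, hι']
          have h6 : ι q' = e (some (ι' q')) := by rw [hes, hι']
          have := hr q q'
          simp only at this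
          rw [h5, h6]
          simp only [comb_some]
          rw [← this]
          split_ifs <;> omega
    rw [hK, Set.ncard_image_of_injective _ (F_inj e), Set.ncard_prod, ncard_Icc', ih ι' hi' hm',
      Finset.prod_range_succ]
    have : m + 1 + k + 1 - 1 = k + m + 1 := by omega
    rw [this]
    ring

section final

variable {P Q : Type*} [PartialOrder P] [PartialOrder Q] [Fintype P] [Fintype Q]

theorem Below.S_eq {ι : Q → P} (h : Below ι) {m : ℕ}
    (hm : Fintype.card P = Fintype.card Q + m) (k : ℕ) : S P k = K ι (m + k) (S Q k) := by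
  ext L
  constructor
  · rintro ⟨hL, hs⟩
    obtain ⟨g, hg, hr⟩ := exists_std (f := fun q => L (ι q)) (fun a b hab => h.inj (hL.1 hab))
    have := (h.iter hm k hL hg hr).1 hs
    exact ⟨hL, this.1, g, ⟨hg, this.2⟩, hr⟩
  · rintro ⟨hL, ht, g, ⟨hg, hs⟩, hr⟩
    exact ⟨hL, (h.iter hm k hL hg hr).2 ⟨ht, hs⟩⟩

theorem Below.a_eq {ι : Q → P} (h : Below ι) {m : ℕ}
    (hm : Fintype.card P = Fintype.card Q + m) {k : ℕ} (hk : k ≤ Fintype.card Q) :
    a P k = (∏ i ∈ Finset.range m, (k + i + 1)) * a Q k := by
  rw [PromotionClosure.a_eq, PromotionClosure.a_eq, h.S_eq hm, K_card k hk _ (fun g hg => hg.1) m ι h.inj hm]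

theorem Below.a_const {ι : Q → P} (h : Below ι) {m : ℕ}
    (hm : Fintype.card P = Fintype.card Q + m) {k l : ℕ} (hk : Fintype.card Q ≤ k) :
    a P l ≤ a P k := by
  rw [PromotionClosure.a_eq, PromotionClosure.a_eq]
  refine Set.ncard_le_ncard ?_ (S_finite _)
  rintro L ⟨hL, _⟩
  refine ⟨hL, ?_⟩
  obtain ⟨g, hg, hr⟩ := exists_std (f := fun q => L (ι q)) (fun a b hab => h.inj (hL.1 hab))
  rw [h.iter hm k hL hg hr]
  refine ⟨fun b _ => ?_, sorted_iter hg (by omega)⟩
  have := hL.2 b
  omega

theorem Below.LC {ι : Q → P} (h : Below ι) (hQ : LC Q) : LC P := by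
  intro i hi _
  have hle : Fintype.card Q ≤ Fintype.card P := Fintype.card_le_of_injective ι h.inj
  obtain ⟨m, hm⟩ : ∃ m, Fintype.card P = Fintype.card Q + m := ⟨_, (Nat.add_sub_cancel' hle).symm⟩
  by_cases hc : i + 1 ≤ Fintype.card Q
  · rw [h.a_eq hm (by omega), h.a_eq hm (by omega), h.a_eq hm (by omega)]
    have h1 := hQ.ext i hi
    have h2 : (∏ j ∈ Finset.range m, (i - 1 + j + 1)) * (∏ j ∈ Finset.range m, (i + 1 + j + 1)) ≤
        (∏ j ∈ Finset.range m, (i + j + 1)) ^ 2 := by
      rw [← Finset.prod_mul_distrib, ← Finset.prod_pow]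
      apply Finset.prod_le_prod'
      intro j _
      obtain ⟨r, rfl⟩ : ∃ r, i = r + 1 := ⟨i - 1, by omega⟩
      simp only [Nat.add_sub_cancel]
      nlinarith
    calc _ = ((∏ j ∈ Finset.range m, (i - 1 + j + 1)) * (∏ j ∈ Finset.range m, (i + 1 + j + 1))) *
          (a Q (i - 1) * a Q (i + 1)) := by ring
      _ ≤ (∏ j ∈ Finset.range m, (i + j + 1)) ^ 2 * a Q i ^ 2 := Nat.mul_le_mul h2 h1
      _ = _ := by ring
  · rw [sq]
    exact Nat.mul_le_mul (a_mono (Nat.sub_le _ _)) (h.a_const hm (by omega))

end final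

/-- placing an antichain `B` below everything else. -/
theorem LC_of_below {P : Type*} [PartialOrder P] [Fintype P] (B : Set P)
    (hB : ∀ b ∈ B, ∀ x, b < x ↔ x ∉ B) (h : LC {x : P // x ∉ B}) : LC P := by
  refine Below.LC (ι := fun x : {x : P // x ∉ B} => x.1) ⟨Subtype.val_injective, ?_, ?_⟩ h
  · intro q q'
    exact Iff.rfl
  · intro b hb x
    have hb' : b ∈ B := by
      by_contra hc
      exact hb ⟨⟨b, hc⟩, rfl⟩
    rw [hB b hb' x]
    constructor
    · intro hx
      exact ⟨⟨x, hx⟩, rfl⟩
    · rintro ⟨y, rfl⟩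
      exact y.2


/-- posets built from the empty poset by adding isolated elements and by placing
antichains below everything else. -/
inductive Built : ∀ (P : Type) [PartialOrder P] [Fintype P], Prop
  | empty (P : Type) [PartialOrder P] [Fintype P] [IsEmpty P] : Built P
  | isolated (P : Type) [PartialOrder P] [Fintype P] (p : P)
      (hp : ∀ x, x ≠ p → ¬ x ≤ p ∧ ¬ p ≤ x) (h : Built {x : P // x ≠ p}) : Built P
  | antichainBelow (P : Type) [PartialOrder P] [Fintype P] (B : Set P)
      (hB : ∀ b ∈ B, ∀ x, b < x ↔ x ∉ B) (h : Built {x : P // x ∉ B}) : Built P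

theorem LC_of_built {P : Type} [PartialOrder P] [Fintype P] (h : Built P) : LC P := by
  induction h with
  | empty P =>
    intro i _ h
    rw [Fintype.card_eq_zero] at h
    omega
  | isolated P p hp _ ih => exact LC_of_isolated p hp ih
  | antichainBelow P B hB _ ih => exact LC_of_below B hB ih

/-- finite weak orders belong to the class. -/
theorem built_of_weak (n : ℕ) : ∀ (P : Type) [PartialOrder P] [Fintype P], Fintype.card P = n →
    (∀ x y z : P, x < y → x < z ∨ z < y) → Built P := by
  induction n using Nat.strong_induction_on with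
  | _ n ih =>
    intro P _ _ hn h
    by_cases he : IsEmpty P
    · exact Built.empty P
    · rw [not_isEmpty_iff] at he
      obtain ⟨x0⟩ := he
      obtain ⟨m, _, hm⟩ := (wellFounded_lt (α := P)).has_min Set.univ ⟨x0, trivial⟩
      obtain ⟨B, hB⟩ : ∃ B : Set P, ∀ b, b ∈ B ↔ ∀ y, ¬ y < b :=
        ⟨{b | ∀ y, ¬ y < b}, fun b => Iff.rfl⟩
      refine Built.antichainBelow P B ?_ (ih _ ?_ _ rfl ?_)
      · intro b hb x
        constructor
        · intro hbx hx
          exact (hB x).1 hx b hbx
        · intro hx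
          rw [hB] at hx
          push Not at hx
          obtain ⟨y, hy⟩ := hx
          rcases h y x b hy with h1 | h1
          · exact absurd h1 ((hB b).1 hb y)
          · exact h1
      · rw [← hn]
        apply Fintype.card_subtype_lt (x := m)
        intro hc
        exact hc ((hB m).2 (fun y => hm y trivial))
      · intro x y z hxy
        exact h x y z hxy

theorem a_isolated {P : Type*} [PartialOrder P] [Fintype P] (p : P)
    (hp : ∀ x, x ≠ p → ¬ x ≤ p ∧ ¬ p ≤ x) (k : ℕ) (hk : k ≤ Fintype.card P) :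
    a P k = (Fintype.card P - k) * a {x : P // x ≠ p} k + k * a {x : P // x ≠ p} (k - 1) := by
  have hc := card_eq (Equiv.optionSubtypeNe p)
  rw [a_iso (Equiv.optionSubtypeNe p) ?_ ?_ ?_ k (by omega), hc]
  · intro x y; simp
  · intro x
    simp only [Equiv.optionSubtypeNe_some, Equiv.optionSubtypeNe_none]
    exact fun h => (hp x x.2).1 h.le
  · intro x
    simp only [Equiv.optionSubtypeNe_some, Equiv.optionSubtypeNe_none]
    exact fun h => (hp x x.2).2 h.le

theorem a_below {P : Type*} [PartialOrder P] [Fintype P] (B : Set P)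
    (hB : ∀ b ∈ B, ∀ x, b < x ↔ x ∉ B) (k : ℕ) (hk : k ≤ Fintype.card {x : P // x ∉ B}) :
    a P k = (∏ i ∈ Finset.range B.ncard, (k + i + 1)) * a {x : P // x ∉ B} k := by
  have hcard : Fintype.card P = Fintype.card {x : P // x ∉ B} + B.ncard := by
    rw [Fintype.card_subtype_compl, ← Nat.card_coe_set_eq B, Nat.card_eq_fintype_card]
    have : Fintype.card {x // x ∈ B} ≤ Fintype.card P := Fintype.card_subtype_le _
    exact (Nat.sub_add_cancel this).symm
  refine Below.a_eq (ι := fun x : {x : P // x ∉ B} => x.1) ⟨Subtype.val_injective, ?_, ?_⟩ hcard hk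
  · intro q q'
    exact Iff.rfl
  · intro b hb x
    have hb' : b ∈ B := by
      by_contra hc
      exact hb ⟨⟨b, hc⟩, rfl⟩
    rw [hB b hb' x]
    constructor
    · intro hx
      exact ⟨⟨x, hx⟩, rfl⟩
    · rintro ⟨y, rfl⟩
      exact y.2

/-- The two recursions, the two closure properties, and the resulting class of posets. -/
theorem result :
    (∀ (P : Type) [PartialOrder P] [Fintype P] (p : P), (∀ x, x ≠ p → ¬ x ≤ p ∧ ¬ p ≤ x) →
      (∀ k ≤ Fintype.card P, a P k =
        (Fintype.card P - k) * a {x : P // x ≠ p} k + k * a {x : P // x ≠ p} (k - 1)) ∧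
      (LC {x : P // x ≠ p} → LC P)) ∧
    (∀ (P : Type) [PartialOrder P] [Fintype P] (B : Set P), (∀ b ∈ B, ∀ x, b < x ↔ x ∉ B) →
      (∀ k ≤ Fintype.card {x : P // x ∉ B}, a P k =
        (∏ i ∈ Finset.range B.ncard, (k + i + 1)) * a {x : P // x ∉ B} k) ∧
      (LC {x : P // x ∉ B} → LC P)) ∧
    (∀ (P : Type) [PartialOrder P] [Fintype P], Built P → LC P) ∧
    (∀ (P : Type) [PartialOrder P] [Fintype P], (∀ x y z : P, x < y → x < z ∨ z < y) → LC P) :=
  ⟨fun _ _ _ p hp => ⟨a_isolated p hp, LC_of_isolated p hp⟩,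
    fun _ _ _ B hB => ⟨a_below B hB, LC_of_below B hB⟩, fun _ _ _ h => LC_of_built h,
    fun P _ _ h => LC_of_built (built_of_weak _ P rfl h)⟩

end Pool.Agent.Results.MP_23e380_co.PromotionClosure
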